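import Pool.Agent.Helper36.DL.BoxSum
import Pool.Agent.Helper11.AA.RatFam

/-! # Curves with fixed denominators: the parameters -/

open Finset

namespace Pool.Agent.Helper36.AA
open Pool.Agent.Helper36.DL Pool.Agent.Helper11.AA Pool.Agent.Helper11.ZP

open Classical in
/-- change of the index set -/
lemma boxS_equiv {σ σ' : Type} [Fintype σ] [Fintype σ'] (e : σ ≃ σ') (H : ℕ) :
    boxS σ' H = (boxS σ H).image fun t => t ∘ e.symm := by
  ext s
  simp only [boxS, mem_image, mem_product, Fintype.mem_piFinset, Prod.exists]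
  constructor
  · rintro ⟨q, b, ⟨hq, hb⟩, rfl⟩
    exact ⟨_, ⟨q, b ∘ e, ⟨hq, fun i => hb _⟩, rfl⟩, by funext i; simp⟩
  · rintro ⟨_, ⟨q, b, ⟨hq, hb⟩, rfl⟩, rfl⟩
    exact ⟨q, b ∘ e.symm, ⟨hq, fun i => hb _⟩, rfl⟩

open Classical in
lemma card_filter_equiv {σ σ' : Type} [Fintype σ] [Fintype σ'] (e : σ ≃ σ') (H : ℕ) (Q : (σ' → ℚ) → Prop) :
    ((boxS σ' H).filter Q).card = ((boxS σ H).filter fun t => Q (t ∘ e.symm)).card := by
  have hinj : Function.Injective (fun t : σ → ℚ => t ∘ e.symm) := by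
    intro t t' h
    funext i
    have := congrFun h (e i)
    simpa using this
  rw [boxS_equiv e, filter_image, card_image_of_injective _ hinj]

variable {n r : ℕ} {Q : Fin n → Polynomial ℚ}

/-- the numerators -/
noncomputable def numer (Q : Fin n → Polynomial ℚ) (s : Fin n ⊕ (Σ i, Fin (Q i).natDegree) → ℚ) (i : Fin n) :
    Polynomial ℚ := ∑ a : Fin (Q i).natDegree, Polynomial.monomial (a : ℕ) (s (Sum.inr ⟨i, a⟩))

lemma numer_degree (hQ : ∀ i, 0 < (Q i).natDegree) (s : Fin n ⊕ (Σ i, Fin (Q i).natDegree) → ℚ) (i : Fin n) :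
    (numer Q s i).degree < (Q i).degree := by
  have hq0 : Q i ≠ 0 := fun h => by
    have := hQ i
    rw [h, Polynomial.natDegree_zero] at this
    exact lt_irrefl _ this
  rw [numer, Polynomial.degree_eq_natDegree hq0]
  refine (Polynomial.degree_sum_le _ _).trans_lt ?_
  rw [Finset.sup_lt_iff (by exact_mod_cast WithBot.bot_lt_coe _)]
  intro a _
  exact (Polynomial.degree_monomial_le _ _).trans_lt (by exact_mod_cast a.2)

lemma coeff_numer (s : Fin n ⊕ (Σ i, Fin (Q i).natDegree) → ℚ) (i : Fin n) (a : Fin (Q i).natDegree) :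
    (numer Q s i).coeff a = s (Sum.inr ⟨i, a⟩) := by
  classical
  rw [numer, Polynomial.finsetSum_coeff, sum_eq_single a]
  · rw [Polynomial.coeff_monomial, if_pos rfl]
  · intro b _ hb
    rw [Polynomial.coeff_monomial, if_neg fun h => hb (Fin.ext h)]
  · intro h
    exact absurd (mem_univ a) h

lemma qev_numer (s : Fin n ⊕ (Σ i, Fin (Q i).natDegree) → ℚ) (i : Fin n) (t : ℂ) :
    qev (numer Q s i) t = ∑ a : Fin (Q i).natDegree, (s (Sum.inr ⟨i, a⟩) : ℂ) * t ^ (a : ℕ) := by
  rw [numer, qev, map_sum]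
  refine sum_congr rfl fun a _ => ?_
  rw [Polynomial.aeval_monomial]
  rfl

end Pool.Agent.Helper36.AA
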