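import Pool.Agent.Helper36.DL.Member
import Pool.Agent.Helper36.DL.Final
import Pool.Agent.Helper36.DL.Place
import Pool.Agent.Helper20.AA.Unif
import Pool.Agent.Helper81.DL.CountU

/-! # Members of linear systems: the assembly -/

open MvPolynomial Finset

namespace Pool.Agent.Helper36.AA
open Pool.Agent.Helper11.ZP Pool.Agent.Helper11.ZU Pool.Agent.Helper20.ZD Pool.Agent.Helper36.DL
  Pool.Agent.Helper69.AA

variable {r n : ℕ}

/-- the functions `s_i + ∑_{κ k = i} s_k w_k` -/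
def lin (κ : Fin r → Fin n) (s : Fin n ⊕ Fin r → ℂ) (w : Fin r → ℂ) (i : Fin n) : ℂ :=
  s (Sum.inl i) + ∑ k with κ k = i, s (Sum.inr k) * w k

lemma eval_linPoly' (κ : Fin r → Fin n) (s : Fin n ⊕ Fin r → ℂ) (w : Fin r → ℂ) :
    (fun i => eval w (linPoly κ s i)) = lin κ s w := by
  funext i
  exact eval_linPoly κ s i w

/-- a fibre is closed -/
lemma closure_subset_fib {ss : Fin n ⊕ Fin r → ℂ} {zs : Fin n → ℂ} {κ : Fin r → Fin n} {V : Set (Fin r → ℂ)}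
    {s : Fin n ⊕ Fin r → ℂ} (h : ∀ w ∈ V, lin κ s w ∈ fib ss zs s) : member κ V s ⊆ fib ss zs s := by
  intro x hx F hF
  set G : MvPolynomial (Fin n) ℂ := aeval (Sum.elim (fun t => C (s t)) X) F with hG
  have hev : ∀ y : Fin n → ℂ, eval y G = aeval (Sum.elim s y) F := by
    intro y
    have h2 : (((aeval y : MvPolynomial (Fin n) ℂ →ₐ[ℂ] ℂ).restrictScalars ℤ).comp
        (aeval (Sum.elim (fun t => C (s t)) X) : MvPolynomial ((Fin n ⊕ Fin r) ⊕ Fin n) ℤ →ₐ[ℤ] _)) =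
          aeval (Sum.elim s y) := by
      ext t
      rcases t with t | t <;> simp
    have h3 := DFunLike.congr_fun h2 F
    simpa [aeval_eq_eval, hG] using h3
  have h1 : G ∈ vanishingIdeal ℂ (pImage (linPoly κ s) V) := by
    rw [mem_van]
    rintro _ ⟨w, hw, rfl⟩
    rw [hev, eval_linPoly']
    exact h w hw F hF
  rw [← hev]
  have h2 := (mem_zeroLocus_iff.1 hx) G h1
  rwa [aeval_eq_eval] at h2

/-- **members of linear systems** -/
theorem members_of_family (hn : 0 < n) {κ : Fin r → Fin n} (hκ : Function.Surjective κ) {V : Set (Fin r → ℂ)}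
    (hV : IsSubvariety V) (h1 : dim V = 1) (hc : ∀ (k : Fin r) (c : ℂ), ∃ w ∈ V, w k ≠ c)
    {ss : Fin n ⊕ Fin r → ℂ} {zs : Fin n → ℂ} (hfib : ∀ s, ∀ w ∈ V, lin κ s w ∈ fib ss zs s)
    (hgood : ∃ P : MvPolynomial (Fin n ⊕ Fin r) ℤ, P ≠ 0 ∧ ∀ (s : Fin n ⊕ Fin r → ℤ) (p : ℕ), p.Prime →
      ¬ (p : ℤ) ∣ eval s P → ∀ v : AbsoluteValue ℂ ℝ, IsNonarchimedean v → v (p : ℂ) < 1 →
        LocalGood v p (fib ss zs fun k => (s k : ℂ))) :
    ∃ P : MvPolynomial (Fin n ⊕ Fin r) ℤ, P ≠ 0 ∧ ∀ (s : Fin n ⊕ Fin r → ℤ) (p : ℕ), p.Prime →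
      ¬ (p : ℤ) ∣ eval s P → ∃ B : ℕ, ∀ (m : ℕ) (q : ℤ), 1 ≤ m → ¬ (p : ℤ) ∣ q → ∀ C : Set (Fin n → ℂ),
        C = member κ V (fun t => ((p : ℂ) ^ m * q)⁻¹ * (s t : ℂ)) →
        IsSubvariety C ∧ dim C = 1 ∧
        {x ∈ C | ∃ S : SpecialData n, dim S.carrier + 2 ≤ n ∧ x ∈ S.carrier}.Finite ∧
        {x ∈ C | ∃ S : SpecialData n, dim S.carrier + 2 ≤ n ∧ x ∈ S.carrier}.ncard ≤ B ∧
        {A | IsAtypical C A ∧ ∀ B, IsAtypical C B → A ⊆ B → B = A}.Finite ∧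
        ∀ S : SpecialData n, dim S.carrier < n → ¬ C ⊆ S.carrier := by
  obtain ⟨P, hP, hgood⟩ := hgood
  obtain ⟨P', hP', hnc⟩ := exists_nonConst hκ hc
  refine ⟨P * P', mul_ne_zero hP hP', fun s p hp hps => ?_⟩
  rw [map_mul] at hps
  have hps1 : ¬ (p : ℤ) ∣ eval s P := fun h => hps (h.mul_right _)
  have hps2 : eval s P' ≠ 0 := fun h => hps (by rw [h, mul_zero]; exact dvd_zero _)
  obtain ⟨v, hv, hvp⟩ := exists_place hp
  have hvp1 : v (p : ℂ) < 1 := by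
    rw [hvp]
    exact inv_lt_one_of_one_lt₀ (by exact_mod_cast hp.one_lt)
  have hloc := hgood s p hp hps1 v hv hvp1
  set C₀ := member κ V (fun t => (s t : ℂ)) with hC₀
  have hsub : IsSubvariety C₀ := isSubvariety_pClosure hV
  have hdim : dim C₀ = 1 := dim_pClosure hV h1 hn (hnc s hps2)
  have hnon := nonConst_pClosure (hnc s hps2)
  obtain ⟨B, hB⟩ := uniform_of_localGood hv hp hvp1 (closure_subset_fib fun w hw => hfib _ w hw) hsub hdim hnon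
    (Helper81.DL.countU hsub hdim hnon) hloc (Helper20.AA.unif_of_localGood hv hp hvp1 hloc)
  refine ⟨B, fun m q hm hq => ?_⟩
  rintro C rfl
  have hpne : (p : ℂ) ≠ 0 := by exact_mod_cast hp.ne_zero
  have hqne : (q : ℂ) ≠ 0 := by
    have : q ≠ 0 := fun h => hq (h ▸ dvd_zero _)
    exact_mod_cast this
  have hpq : (p : ℂ) ^ m * (q : ℂ) ≠ 0 := mul_ne_zero (pow_ne_zero m hpne) hqne
  have hvq : v (q : ℂ) = 1 := Helper69.DL.v_int_eq_one hv hp hvp1 hq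
  have heq : member κ V (fun t => ((p : ℂ) ^ m * q)⁻¹ * (s t : ℂ)) =
      affine (fun _ => ((p : ℂ) ^ m * q)⁻¹) (fun _ => 0) C₀ := member_smul κ V _ (inv_ne_zero hpq)
  have hp1 : (p : ℂ) ^ m * ((p : ℂ) ^ m * (q : ℂ))⁻¹ = (q : ℂ)⁻¹ := by
    rw [mul_inv, ← mul_assoc, mul_inv_cancel₀ (pow_ne_zero m hpne), one_mul]
  have haff : AffAt v p m (fun _ : Fin n => ((p : ℂ) ^ m * q)⁻¹) (fun _ => 0) := by
    refine ⟨hm, fun i => ?_, fun i => ?_, fun i => ?_, fun i => ?_⟩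
    · rw [hp1]
      exact (Zp.int q).inv hv hp hvp1 hvq
    · rw [hp1, map_inv₀, hvq, inv_one]
    · rw [mul_zero]
      simpa using Zp.int (v := v) (p := p) 0
    · rw [mul_zero, map_zero]
      exact v.nonneg _
  rw [heq]
  obtain ⟨d1, d2, d3, d4⟩ := hB m _ _ haff
  exact ⟨isSubvariety_affine (fun _ => inv_ne_zero hpq) _ hsub, by
    rw [dim_affine (fun _ => inv_ne_zero hpq), hdim], d1, d2, d3, d4⟩

end Pool.Agent.Helper36.AA
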