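import Pool.Agent.Helper36.DL.Member
import Pool.Agent.Helper36.DL.Descent

/-! # No coordinate is constant on the members with general complex parameters -/

open MvPolynomial Finset

namespace Pool.Agent.Helper36.AA
open Pool.Agent.Helper11.ZP Pool.Agent.Helper36.DL

variable {r n : ℕ}

instance : IsAlgClosed (algebraicClosure ℚ ℂ) := (algebraicClosure.isAlgClosure ℚ ℂ).isAlgClosed

/-- the algebraic points are dense -/
lemma exists_alg_point {V : Set (Fin r → ℂ)} (hs : OverAlg V) (f : MvPolynomial (Fin r) (algebraicClosure ℚ ℂ))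
    (hf : ∃ w ∈ V, aeval w f ≠ 0) : ∃ w ∈ V, (∀ i, IsAlgebraic ℚ (w i)) ∧ aeval w f ≠ 0 := by
  obtain ⟨s, hs, hV⟩ := hs
  set I : Ideal (MvPolynomial (Fin r) (algebraicClosure ℚ ℂ)) :=
    Ideal.span {g | map (algebraMap (algebraicClosure ℚ ℂ) ℂ) g ∈ s} with hI
  have hev : ∀ (w : Fin r → ℂ) (g : MvPolynomial (Fin r) (algebraicClosure ℚ ℂ)),
      eval w (map (algebraMap (algebraicClosure ℚ ℂ) ℂ) g) = aeval w g := by
    intro w g
    rw [eval_map, aeval_def]
  have hVI : ∀ w ∈ V, ∀ g ∈ I, aeval w g = 0 := by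
    intro w hw g hg
    have h1 : I ≤ RingHom.ker (aeval w : MvPolynomial (Fin r) (algebraicClosure ℚ ℂ) →ₐ[_] ℂ) := by
      rw [hI, Ideal.span_le]
      intro g hg
      change aeval w g = 0
      rw [← hev]
      rw [hV] at hw
      exact hw _ hg
    exact h1 hg
  obtain ⟨x, hx, hxf⟩ : ∃ x ∈ zeroLocus (algebraicClosure ℚ ℂ) I, aeval x f ≠ 0 := by
    by_contra hcon
    push Not at hcon
    have h1 : f ∈ vanishingIdeal (algebraicClosure ℚ ℂ) (zeroLocus (algebraicClosure ℚ ℂ) I) :=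
      mem_vanishingIdeal_iff.2 fun x hx => hcon x hx
    rw [vanishingIdeal_zeroLocus_eq_radical] at h1
    obtain ⟨N, hN⟩ := h1
    obtain ⟨w, hw, hwf⟩ := hf
    have h2 := hVI w hw _ hN
    rw [map_pow] at h2
    exact hwf (eq_zero_of_pow_eq_zero h2)
  refine ⟨fun i => (x i : ℂ), ?_, fun i => mem_algebraicClosure_iff.1 (x i).2, ?_⟩
  · rw [hV]
    intro g hg
    set g' : MvPolynomial (Fin r) (algebraicClosure ℚ ℂ) :=
      ∑ m ∈ g.support, monomial m (⟨g.coeff m, mem_algebraicClosure_iff.2 (hs g hg m)⟩ : algebraicClosure ℚ ℂ) with hg'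
    have h1 : map (algebraMap (algebraicClosure ℚ ℂ) ℂ) g' = g := by
      rw [hg', map_sum]
      conv_rhs => rw [g.as_sum]
      refine sum_congr rfl fun m _ => ?_
      rw [map_monomial]
      rfl
    have h2 : g' ∈ I := Ideal.subset_span (by change map _ g' ∈ s; rw [h1]; exact hg)
    have h3 := mem_zeroLocus_iff.1 hx g' h2
    have h4 : aeval (fun i => (x i : ℂ)) g' = algebraMap (algebraicClosure ℚ ℂ) ℂ (aeval x g') :=
      aeval_algebraMap_apply ℂ x g'
    rw [← h1, hev, h4, h3, map_zero]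
  · have h4 : aeval (fun i => (x i : ℂ)) f = algebraMap (algebraicClosure ℚ ℂ) ℂ (aeval x f) :=
      aeval_algebraMap_apply ℂ x f
    rw [h4]
    exact (map_ne_zero _).2 hxf

/-- a nonzero linear form with algebraic coefficients divides a polynomial with integral coefficients -/
lemma exists_norm {σ : Type} {B : Finset σ} {δ : σ → ℂ} (hδ : ∀ k, IsAlgebraic ℚ (δ k)) {k₀ : σ}
    (hk : k₀ ∈ B) (h0 : δ k₀ ≠ 0) : ∃ P : MvPolynomial σ ℤ, P ≠ 0 ∧ ∀ s : σ → ℂ,
      ∑ k ∈ B, s k * δ k = 0 → aeval s P = 0 := by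
  classical
  let _ : Algebra (MvPolynomial σ ℤ) (MvPolynomial σ ℂ) := (map (Int.castRingHom ℂ)).toAlgebra
  have halg : algebraMap (MvPolynomial σ ℤ) (MvPolynomial σ ℂ) = map (Int.castRingHom ℂ) := rfl
  have hC : ∀ d : ℂ, IsAlgebraic ℚ d → IsAlgebraic (MvPolynomial σ ℤ) (C d : MvPolynomial σ ℂ) := by
    intro d hd
    obtain ⟨q, hq0, hq⟩ := (IsFractionRing.isAlgebraic_iff ℤ ℚ ℂ).2 hd
    refine ⟨q.map (C : ℤ →+* MvPolynomial σ ℤ), (Polynomial.map_ne_zero_iff (C_injective _ _)).2 hq0, ?_⟩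
    rw [Polynomial.aeval_def, Polynomial.eval₂_map]
    have h1 : (algebraMap (MvPolynomial σ ℤ) (MvPolynomial σ ℂ)).comp C = (C : ℂ →+* MvPolynomial σ ℂ).comp
        (algebraMap ℤ ℂ) := RingHom.ext_int _ _
    rw [h1, ← Polynomial.hom_eval₂]
    rw [Polynomial.aeval_def] at hq
    rw [hq, map_zero]
  set L : MvPolynomial σ ℂ := ∑ k ∈ B, X k * C (δ k) with hL
  have hLalg : IsAlgebraic (MvPolynomial σ ℤ) L := by
    have h1 : ∀ k, IsAlgebraic (MvPolynomial σ ℤ) (X k * C (δ k) : MvPolynomial σ ℂ) := by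
      intro k
      refine IsAlgebraic.mul ?_ (hC _ (hδ k))
      have : (X k : MvPolynomial σ ℂ) = algebraMap (MvPolynomial σ ℤ) (MvPolynomial σ ℂ) (X k) := by
        rw [halg, map_X]
      rw [this]
      exact isAlgebraic_algebraMap _
    exact Finset.sum_induction _ (IsAlgebraic (MvPolynomial σ ℤ)) (fun a b ha hb => ha.add hb) isAlgebraic_zero
      fun k _ => h1 k
  have hL0 : L ≠ 0 := by
    intro h
    have h1 := congrArg (eval (Pi.single k₀ (1 : ℂ))) h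
    rw [hL, map_sum, map_zero, sum_eq_single k₀] at h1
    · simp at h1
      exact h0 h1
    · intro k _ hk
      simp [hk]
    · exact fun h => absurd hk h
  obtain ⟨P, hP, hdvd⟩ := hLalg.exists_nonzero_dvd (mem_nonZeroDivisors_of_ne_zero hL0)
  refine ⟨P, hP, fun s hs => ?_⟩
  obtain ⟨Q, hQ⟩ := hdvd
  have h1 : eval s L = 0 := by
    rw [hL, map_sum, ← hs]
    exact sum_congr rfl fun k _ => by simp
  have h2 := congrArg (eval s) hQ
  rw [map_mul, h1, zero_mul, halg, eval_map] at h2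
  rw [aeval_def]
  exact h2

/-- for general complex `s` no coordinate is constant -/
theorem exists_nonConstC {κ : Fin r → Fin n} (hκ : Function.Surjective κ) {V : Set (Fin r → ℂ)}
    (hs : OverAlg V) (hc : ∀ (k : Fin r) (c : ℂ), ∃ w ∈ V, w k ≠ c) :
    ∃ P : MvPolynomial (Fin n ⊕ Fin r) ℤ, P ≠ 0 ∧ ∀ s : Fin n ⊕ Fin r → ℂ, aeval s P ≠ 0 →
      ∀ i, ∃ w ∈ V, ∃ w' ∈ V, eval w (linPoly κ s i) ≠ eval w' (linPoly κ s i) := by
  classical
  have one : ∀ i : Fin n, ∃ P : MvPolynomial (Fin n ⊕ Fin r) ℤ, P ≠ 0 ∧ ∀ s : Fin n ⊕ Fin r → ℂ,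
      aeval s P ≠ 0 → ∃ w ∈ V, ∃ w' ∈ V, eval w (linPoly κ s i) ≠ eval w' (linPoly κ s i) := by
    intro i
    obtain ⟨k₀, hk₀⟩ := hκ i
    obtain ⟨w₀, hw₀, -⟩ := hc k₀ 0
    obtain ⟨w, hw, hwa, -⟩ := exists_alg_point hs 1 ⟨w₀, hw₀, by rw [map_one]; exact one_ne_zero⟩
    obtain ⟨w₁, hw₁, hne⟩ := hc k₀ (w k₀)
    obtain ⟨w', hw', hwa', hne'⟩ := exists_alg_point hs
      (X k₀ - C (⟨w k₀, mem_algebraicClosure_iff.2 (hwa k₀)⟩ : algebraicClosure ℚ ℂ)) ⟨w₁, hw₁, by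
        rw [map_sub, aeval_X, aeval_C]
        exact sub_ne_zero.2 hne⟩
    rw [map_sub, aeval_X, aeval_C] at hne'
    change w' k₀ - w k₀ ≠ 0 at hne'
    obtain ⟨P, hP, h⟩ := exists_norm (σ := Fin n ⊕ Fin r)
      (B := (univ.filter fun k : Fin r => κ k = i).image Sum.inr)
      (δ := Sum.elim (fun _ => 0) fun k => w' k - w k) (by
        rintro (j | k)
        · exact isAlgebraic_zero
        · exact (hwa' k).sub (hwa k)) (k₀ := Sum.inr k₀)
      (mem_image_of_mem _ (mem_filter.2 ⟨mem_univ _, hk₀⟩)) hne'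
    refine ⟨P, hP, fun s hs => ⟨w', hw', w, hw, fun heq => hs (h s ?_)⟩⟩
    rw [sum_image (fun a _ b _ h => Sum.inr_injective h)]
    rw [eval_linPoly, eval_linPoly, add_right_inj] at heq
    simp only [Sum.elim_inr, mul_sub, sum_sub_distrib]
    rw [heq, sub_self]
  choose P hP h using one
  refine ⟨∏ i, P i, prod_ne_zero_iff.2 fun i _ => hP i, fun s hs i => h i s ?_⟩
  rw [map_prod, prod_ne_zero_iff] at hs
  exact hs i (mem_univ i)

end Pool.Agent.Helper36.AA
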