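import Pool.Agent.Helper36.AA.Members
import Pool.Agent.Helper36.AA.NonConstC
import Pool.Agent.Helper36.DL.UnifFam
import Pool.Agent.Helper36.DL.ZpLem
import Pool.Agent.Helper20.NB.LocalN

/-! # Members of linear systems, uniformly in the parameters: the assembly -/

open MvPolynomial Finset

namespace Pool.Agent.Helper36.AA
open Pool.Agent.Helper11.ZP Pool.Agent.Helper11.ZU Pool.Agent.Helper20.ZD Pool.Agent.Helper36.DL
  Pool.Agent.Helper69.AA Pool.Agent.Helper69.DL Pool.Agent.Helper20.DL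

variable {r n : ℕ} {v : AbsoluteValue ℂ ℝ} {p : ℕ}

/-- the conclusions for the curve `C` -/
def Concl (B : ℕ) (C : Set (Fin n → ℂ)) : Prop :=
  IsSubvariety C ∧ dim C = 1 ∧
  {x ∈ C | ∃ S : SpecialData n, dim S.carrier + 2 ≤ n ∧ x ∈ S.carrier}.Finite ∧
  {x ∈ C | ∃ S : SpecialData n, dim S.carrier + 2 ≤ n ∧ x ∈ S.carrier}.ncard ≤ B ∧
  {A | IsAtypical C A ∧ ∀ B, IsAtypical C B → A ⊆ B → B = A}.Finite ∧
  ∀ S : SpecialData n, dim S.carrier < n → ¬ C ⊆ S.carrier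

/-- a larger bound -/
lemma Concl.mono {B B' : ℕ} (h : B ≤ B') {C : Set (Fin n → ℂ)} (hC : Concl B C) : Concl B' C :=
  ⟨hC.1, hC.2.1, hC.2.2.1, hC.2.2.2.1.trans h, hC.2.2.2.2⟩

/-- `p ^ m l` is a unit of the closure of `ℤ` for some `m ≥ 1` -/
def Scalar (v : AbsoluteValue ℂ ℝ) (p : ℕ) (l : ℂ) : Prop :=
  ∃ m : ℕ, 1 ≤ m ∧ Zp v p ((p : ℂ) ^ m * l) ∧ v ((p : ℂ) ^ m * l) = 1

lemma Scalar.ne {l : ℂ} (h : Scalar v p l) : l ≠ 0 := by
  rintro rfl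
  obtain ⟨m, -, -, h⟩ := h
  rw [mul_zero, map_zero] at h
  exact zero_ne_one h

/-- the members in a set `Z` for which the three cases are known -/
theorem members_of_unif (hn : 0 < n) (hv : IsNonarchimedean v) (hp : p.Prime) (hvp : v (p : ℂ) < 1)
    {κ : Fin r → Fin n} {V : Set (Fin r → ℂ)} (hV : IsSubvariety V) (h1 : dim V = 1) {Z : Set (Fin n → ℂ)}
    (hcor : ∀ z ∈ Z, ∀ i j, i ≠ j → v (z i) = 1 ∨ v (z j) = 1)
    (hu : UnifA v p Z ∧ UnifB v p Z ∧ UnifC v p Z) {c : ℕ}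
    (hcount : ∀ s : Fin n ⊕ Fin r → ℂ, CountC c (member κ V s)) :
    ∃ B : ℕ, ∀ s : Fin n ⊕ Fin r → ℂ, member κ V s ⊆ Z →
      (∀ i, ∃ w ∈ V, ∃ w' ∈ V, eval w (linPoly κ s i) ≠ eval w' (linPoly κ s i)) →
        ∀ l : ℂ, Scalar v p l → Concl B (member κ V fun t => l * s t) := by
  have hvp0 : 0 < v (p : ℂ) := (AbsoluteValue.pos_iff v).2 (by exact_mod_cast hp.ne_zero)
  obtain ⟨⟨B₁, hA⟩, ⟨B₂, hB⟩, ⟨B₃, hC⟩⟩ := hu
  obtain ⟨B, hB⟩ := uniform_fam hv hcor (𝒜 := fun lam a => ∃ m, AffAt v p m lam a)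
    (fun lam a ⟨m, h⟩ => ⟨h.one_lt hvp0 hvp, h.a_lt hvp0 hvp⟩)
    ⟨B₁, fun lam a ⟨m, h⟩ => hA m lam a h⟩ ⟨B₂, fun lam a ⟨m, h⟩ => hB m lam a h⟩
    ⟨B₃, fun lam a ⟨m, h⟩ => hC m lam a h⟩ c
  refine ⟨B, fun s hs hnc l hl => ?_⟩
  have hl0 := hl.ne
  obtain ⟨m, hm, hl1, hl2⟩ := hl
  have hsub : IsSubvariety (member κ V s) := isSubvariety_pClosure hV
  have hdim : dim (member κ V s) = 1 := dim_pClosure hV h1 hn hnc
  have hnon := nonConst_pClosure hnc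
  have haff : AffAt v p m (fun _ : Fin n => l) (fun _ => 0) := by
    refine ⟨hm, fun i => hl1, fun i => hl2, fun i => ?_, fun i => ?_⟩
    · rw [mul_zero]
      simpa using Zp.int (v := v) (p := p) 0
    · rw [mul_zero, map_zero]
      exact v.nonneg _
  have heq : member κ V (fun t => l * s t) = affine (fun _ => l) (fun _ => 0) (member κ V s) :=
    member_smul κ V _ hl0
  rw [heq]
  obtain ⟨d1, d2, d3, d4⟩ := hB _ hs hsub hdim hnon (hcount s) _ _ ⟨m, haff⟩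
  exact ⟨isSubvariety_affine (fun _ => hl0) _ hsub, by
    rw [dim_affine (fun _ => hl0), hdim], d1, d2, d3, d4⟩

/-- the value of an integral polynomial at vectors which are close -/
lemma v_aeval_sub_le {σ : Type} (hv : IsNonarchimedean v) {s s' : σ → ℂ} {δ : ℝ} (hδ0 : 0 ≤ δ)
    (hs : ∀ k, v (s k) ≤ 1) (hs' : ∀ k, v (s' k) ≤ 1) (h : ∀ k, v (s k - s' k) ≤ δ) (P : MvPolynomial σ ℤ) :
    v (aeval s P) ≤ 1 ∧ v (aeval s' P) ≤ 1 ∧ v (aeval s P - aeval s' P) ≤ δ := by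
  induction P using MvPolynomial.induction_on with
  | C a =>
    have h1 : v (algebraMap ℤ ℂ a) ≤ 1 := by
      rw [eq_intCast]
      exact v_int_le hv a
    rw [algHom_C, algHom_C]
    refine ⟨h1, h1, ?_⟩
    rw [sub_self, map_zero]
    exact hδ0
  | add f g hf hg =>
    obtain ⟨f1, f2, f3⟩ := hf
    obtain ⟨g1, g2, g3⟩ := hg
    rw [map_add (aeval s) f g, map_add (aeval s') f g]
    refine ⟨(hv _ _).trans (max_le f1 g1), (hv _ _).trans (max_le f2 g2), ?_⟩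
    rw [show aeval s f + aeval s g - (aeval s' f + aeval s' g) = (aeval s f - aeval s' f) +
      (aeval s g - aeval s' g) by ring]
    exact (hv _ _).trans (max_le f3 g3)
  | mul_X f k hf =>
    obtain ⟨f1, f2, f3⟩ := hf
    rw [map_mul (aeval s) f (X k), map_mul (aeval s') f (X k), aeval_X, aeval_X]
    refine ⟨?_, ?_, ?_⟩
    · rw [map_mul]
      exact mul_le_one₀ f1 (v.nonneg _) (hs k)
    · rw [map_mul]
      exact mul_le_one₀ f2 (v.nonneg _) (hs' k)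
    · rw [show aeval s f * s k - aeval s' f * s' k = (aeval s f - aeval s' f) * s k +
        aeval s' f * (s k - s' k) by ring]
      refine (hv _ _).trans (max_le ?_ ?_)
      · rw [map_mul]
        exact (mul_le_of_le_one_right (v.nonneg _) (hs k)).trans f3
      · rw [map_mul]
        exact (mul_le_of_le_one_left (v.nonneg _) f2).trans (h k)

/-- the value at a vector near an integral one is a unit if and only if the value at the integral one is -/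
lemma unit_near {σ : Type} (hv : IsNonarchimedean v) (hp : p.Prime) (hvp : v (p : ℂ) < 1) {s : σ → ℂ} {s₀ : σ → ℤ}
    (h : ∀ k, v (s k - s₀ k) ≤ v (p : ℂ)) (P : MvPolynomial σ ℤ) :
    v (aeval s P) = 1 ↔ ¬ (p : ℤ) ∣ eval s₀ P := by
  have h0 : ∀ k, v ((s₀ k : ℤ) : ℂ) ≤ 1 := fun k => v_int_le hv _
  have h1 : ∀ k, v (s k) ≤ 1 := fun k => by
    rw [show s k = (s k - s₀ k) + s₀ k by ring]
    exact (hv _ _).trans (max_le ((h k).trans hvp.le) (h0 k))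
  obtain ⟨-, -, h2⟩ := v_aeval_sub_le hv (v.nonneg _) h1 h0 h P
  have h3 : aeval (fun k => ((s₀ k : ℤ) : ℂ)) P = ((eval s₀ P : ℤ) : ℂ) := by
    rw [aeval_def, ← eval₂_id]
    have := hom_eval₂ P (RingHom.id ℤ) (algebraMap ℤ ℂ) s₀
    rw [RingHom.comp_id] at this
    exact this.symm
  rw [h3] at h2
  constructor
  · intro h4 hd
    have h5 := (v_int_lt_iff hv hp hvp).2 hd
    have h6 : v (aeval s P) < 1 := by
      rw [show aeval s P = (aeval s P - ((eval s₀ P : ℤ) : ℂ)) + ((eval s₀ P : ℤ) : ℂ) by ring]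
      exact (hv _ _).trans_lt (max_lt (h2.trans_lt hvp) h5)
    rw [h4] at h6
    exact lt_irrefl _ h6
  · intro hd
    have h4 : v ((eval s₀ P : ℤ) : ℂ) = 1 := v_int_eq_one hv hp hvp hd
    rw [show aeval s P = ((eval s₀ P : ℤ) : ℂ) + (aeval s P - ((eval s₀ P : ℤ) : ℂ)) by ring,
      v_add_eq hv (by rw [h4]; exact h2.trans_lt hvp), h4]

/-- a factor of a unit is a unit -/
lemma unit_of_mul {σ : Type} (hv : IsNonarchimedean v) {s : σ → ℂ} (hs : ∀ k, v (s k) ≤ 1)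
    {P P' : MvPolynomial σ ℤ} (h : v (aeval s (P * P')) = 1) : v (aeval s P) = 1 ∧ v (aeval s P') = 1 := by
  rw [map_mul, map_mul] at h
  obtain ⟨h2, -, -⟩ := v_aeval_sub_le hv zero_le_one hs hs (fun k => by rw [sub_self, map_zero]; exact zero_le_one) P
  obtain ⟨h3, -, -⟩ := v_aeval_sub_le hv zero_le_one hs hs (fun k => by rw [sub_self, map_zero]; exact zero_le_one) P'
  constructor
  · refine le_antisymm h2 ?_
    rw [← h]
    exact mul_le_of_le_one_right (v.nonneg _) h3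
  · refine le_antisymm h3 ?_
    rw [← h]
    exact mul_le_of_le_one_left (v.nonneg _) h2

/-- the union of the fibres over the parameters near `s₀` modulo `p ^ 2` -/
def nearFib (ss : Fin n ⊕ Fin r → ℂ) (zs : Fin n → ℂ) (v : AbsoluteValue ℂ ℝ) (p : ℕ) (s₀ : Fin n ⊕ Fin r → ℤ) :
    Set (Fin n → ℂ) :=
  {z | ∃ s : Fin n ⊕ Fin r → ℂ, (∀ k, v (s k - s₀ k) ≤ v (p : ℂ) ^ 2) ∧ z ∈ fib ss zs s}

/-- **members of linear systems**, uniformly in the parameters -/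
theorem members_uniform (hn : 0 < n) {κ : Fin r → Fin n} (hκ : Function.Surjective κ) {V : Set (Fin r → ℂ)}
    (hV : IsSubvariety V) (h1 : dim V = 1) (hs : OverAlg V) (hc : ∀ (k : Fin r) (c : ℂ), ∃ w ∈ V, w k ≠ c)
    {ss : Fin n ⊕ Fin r → ℂ} {zs : Fin n → ℂ} (hfib : ∀ s, ∀ w ∈ V, lin κ s w ∈ fib ss zs s)
    (hclass : ∃ P : MvPolynomial (Fin n ⊕ Fin r) ℤ, P ≠ 0 ∧ ∀ (s₀ : Fin n ⊕ Fin r → ℤ) (p : ℕ), p.Prime →
      ¬ (p : ℤ) ∣ eval s₀ P → ∀ v : AbsoluteValue ℂ ℝ, IsNonarchimedean v → v (p : ℂ) < 1 →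
        Helper20.NB.LocalNear v p (nearFib ss zs v p s₀)) {c : ℕ}
    (hcount : ∀ s : Fin n ⊕ Fin r → ℂ, CountC c (member κ V s)) :
    ∃ P : MvPolynomial (Fin n ⊕ Fin r) ℤ, P ≠ 0 ∧ ∀ p : ℕ, p.Prime → ∀ v : AbsoluteValue ℂ ℝ,
      IsNonarchimedean v → v (p : ℂ) < 1 → ∃ B : ℕ, ∀ s : Fin n ⊕ Fin r → ℂ, (∀ k, Zp v p (s k)) →
        v (aeval s P) = 1 → ∀ l : ℂ, Scalar v p l → Concl B (member κ V fun t => l * s t) := by
  classical
  obtain ⟨P, hP, hclass⟩ := hclass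
  obtain ⟨P', hP', hnc⟩ := exists_nonConstC hκ hs hc
  refine ⟨P * P', mul_ne_zero hP hP', fun p hp v hv hvp => ?_⟩
  have hvp0 : 0 < v (p : ℂ) := (AbsoluteValue.pos_iff v).2 (by exact_mod_cast hp.ne_zero)
  have hvp2 : v (p : ℂ) ^ 2 ≤ v (p : ℂ) := by
    rw [sq]
    exact mul_le_of_le_one_left hvp0.le hvp.le
  have key : ∀ s₀ : Fin n ⊕ Fin r → ℕ, ∃ B : ℕ, ¬ (p : ℤ) ∣ eval (fun k => (s₀ k : ℤ)) P →
      ∀ s : Fin n ⊕ Fin r → ℂ, member κ V s ⊆ nearFib ss zs v p (fun k => (s₀ k : ℤ)) →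
      (∀ i, ∃ w ∈ V, ∃ w' ∈ V, eval w (linPoly κ s i) ≠ eval w' (linPoly κ s i)) →
        ∀ l : ℂ, Scalar v p l → Concl B (member κ V fun t => l * s t) := by
    intro s₀
    by_cases h : ¬ (p : ℤ) ∣ eval (fun k => (s₀ k : ℤ)) P
    · have hloc := hclass (fun k => (s₀ k : ℤ)) p hp h v hv hvp
      obtain ⟨B, hB⟩ := members_of_unif hn hv hp hvp hV h1 hloc.corner (Helper20.NB.localNear_unif hv hp hvp hloc)
        hcount
      exact ⟨B, fun _ => hB⟩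
    · exact ⟨0, fun h' => absurd h' h⟩
  choose B hB using key
  refine ⟨(Fintype.piFinset fun _ : Fin n ⊕ Fin r => range (p ^ 2)).sup B, fun s hsZ hsP l hl => ?_⟩
  choose s₀ hs₀ hs₀v using fun k => Helper69.DL.exists_small hv hp (hsZ k) 2
  have hnear : ∀ k, v (s k - ((s₀ k : ℤ) : ℂ)) ≤ v (p : ℂ) ^ 2 := fun k => by
    push_cast
    exact hs₀v k
  obtain ⟨h4, h5⟩ := unit_of_mul hv (fun k => (hsZ k).le_one hv) hsP
  have h5' : aeval s P' ≠ 0 := fun h0 => by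
    rw [h0, map_zero] at h5
    exact zero_ne_one h5
  have h6 := (unit_near hv hp hvp (fun k => (hnear k).trans hvp2) P).1 h4
  refine (hB s₀ h6 s ?_ (hnc s h5') l hl).mono (Finset.le_sup (f := B) ?_)
  · exact (closure_subset_fib fun w hw => hfib s w hw).trans fun z hz => ⟨s, hnear, hz⟩
  · exact Fintype.mem_piFinset.2 fun k => mem_range.2 (hs₀ k)

/-- **members of linear systems**, the individual complex parameters near integral ones modulo `p` -/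
theorem members_near (hn : 0 < n) {κ : Fin r → Fin n} (hκ : Function.Surjective κ) {V : Set (Fin r → ℂ)}
    (hV : IsSubvariety V) (h1 : dim V = 1) (hs : OverAlg V) (hc : ∀ (k : Fin r) (c : ℂ), ∃ w ∈ V, w k ≠ c)
    {ss : Fin n ⊕ Fin r → ℂ} {zs : Fin n → ℂ} (hfib : ∀ s, ∀ w ∈ V, lin κ s w ∈ fib ss zs s)
    (hnear : ∃ P : MvPolynomial (Fin n ⊕ Fin r) ℤ, P ≠ 0 ∧ ∀ (s₀ : Fin n ⊕ Fin r → ℤ) (p : ℕ), p.Prime →
      ¬ (p : ℤ) ∣ eval s₀ P → ∀ v : AbsoluteValue ℂ ℝ, IsNonarchimedean v → v (p : ℂ) < 1 →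
        ∀ s : Fin n ⊕ Fin r → ℂ, (∀ k, v (s k - s₀ k) ≤ v (p : ℂ)) → Helper20.NB.LocalNear v p (fib ss zs s)) {c : ℕ}
    (hcount : ∀ s : Fin n ⊕ Fin r → ℂ, CountC c (member κ V s)) :
    ∃ P : MvPolynomial (Fin n ⊕ Fin r) ℤ, P ≠ 0 ∧ ∀ p : ℕ, p.Prime → ∀ v : AbsoluteValue ℂ ℝ,
      IsNonarchimedean v → v (p : ℂ) < 1 → ∀ s₀ : Fin n ⊕ Fin r → ℤ, ¬ (p : ℤ) ∣ eval s₀ P →
        ∀ s : Fin n ⊕ Fin r → ℂ, (∀ k, v (s k - s₀ k) ≤ v (p : ℂ)) → ∃ B : ℕ, ∀ l : ℂ, Scalar v p l →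
          Concl B (member κ V fun t => l * s t) := by
  classical
  obtain ⟨P, hP, hnear⟩ := hnear
  obtain ⟨P', hP', hnc⟩ := exists_nonConstC hκ hs hc
  refine ⟨P * P', mul_ne_zero hP hP', fun p hp v hv hvp s₀ hs₀ s hss => ?_⟩
  rw [map_mul] at hs₀
  have h2 : ¬ (p : ℤ) ∣ eval s₀ P := fun h => hs₀ (h.mul_right _)
  have h3 : ¬ (p : ℤ) ∣ eval s₀ P' := fun h => hs₀ (h.mul_left _)
  have h4 := (unit_near hv hp hvp hss P').2 h3
  have h5 : aeval s P' ≠ 0 := fun h0 => by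
    rw [h0, map_zero] at h4
    exact zero_ne_one h4
  have hloc := hnear s₀ p hp h2 v hv hvp s hss
  obtain ⟨B, hB⟩ := members_of_unif hn hv hp hvp hV h1 hloc.corner (Helper20.NB.localNear_unif hv hp hvp hloc)
    hcount
  exact ⟨B, fun l hl => hB s (closure_subset_fib fun w hw => hfib s w hw) (hnc s h5) l hl⟩

end Pool.Agent.Helper36.AA
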